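import Pool.Agent.H.MP_c89ac5_lc.Rank
import Pool.Agent.Lib.helper26.Pres

namespace Pool.Agent.H.MP_c89ac5_lc

open Encodable Pool.Agent.Lib.PR Pool.Agent.Lib.helper21.CPred
open Pool.Agent.H.MP_fed070_lc (pf pf_succ pf_length take_pf dl dl_encode encode_dl p_dl)

attribute [local irreducible] Primrec Computable

/-- strings all of whose initial segments satisfy a condition -/
def Cl (Q : Tree) : Tree := fun l => ∀ k < l.length + 1, Q (l.take k)

theorem pc_cl (Q : Tree) : PC (Cl Q) := fun l l' h k hk => by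
  have := h k (by simp; omega)
  rwa [List.take_append_of_le_length (by omega)] at this

theorem br_cl {Q : Tree} {f} : Br (Cl Q) f ↔ ∀ n, Q (pf f n) :=
  ⟨fun h n => by simpa [take_pf] using h n n (by simp), fun h n k hk => by
    rw [take_pf f (by simpa [Nat.lt_succ_iff] using hk)]; exact h k⟩

theorem Cl.self {Q : Tree} {l} (h : Cl Q l) : Q l := by simpa using h l.length (by simp)

theorem pf_getD (f : ℕ → ℕ) {n i} (h : i < n) : (pf f n).getD i 0 = f i := by
  simp [pf, List.getD_eq_getElem?_getD, h]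

theorem map_pf (g f : ℕ → ℕ) (n) : (pf f n).map g = pf (fun i => g (f i)) n := by simp [pf]

theorem eq_pf (l : List ℕ) : pf (fun i => l.getD i 0) l.length = l :=
  List.ext_getElem (by simp) fun i _ h => by simp [pf, List.getD_eq_getElem?_getD, h]

variable (T : List ℕ → List ℕ → Bool)

/-- search for a group element extending a tuple -/
def V (c : List ℕ) : Tree := Cl fun l => T (l.map c1) (l.map c2) = true ∧ ∀ i < c.length,
  (i < l.length → c1 (l.getD i 0) = c.getD i 0) ∧
    (c.getD i 0 < l.length → c2 (l.getD (c.getD i 0) 0) = i)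

/-- search for a failure of invariance -/
def QS (U : ℕ → Prop) (c c' m : List ℕ) : Prop :=
  (c.length = c'.length ∧
    ∀ j < c.length, c.getD j 0 < m.length → c1 (c1 (m.getD (c.getD j 0) 0)) = c'.getD j 0) ∧
  V T [] (m.map c1) ∧ V T c' (m.map fun x => c2 (c2 x)) ∧ ∀ i < m.length, ¬ V T c (dl i) ∨
    (U (c1 (c2 (m.getD i 0))) ∧ (dl (c1 (c2 (m.getD i 0)))).length = (dl i).length ∧
      ∀ j < m.length, dl j <+: dl i → dl (c1 (c2 (m.getD j 0))) <+: dl (c1 (c2 (m.getD i 0))))

/-- the bounding trees -/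
def Wk : ℕ → Tree
  | 0 => Cl fun l => l.length ≤ 0
  | k + 1 => Cl fun l => l.length ≤ k + 1 ∨
      QS T (fun j => Wk k (dl j)) (dl (c1 (l.headD 0))) (dl (c2 (l.headD 0))) l.tail

/-- their sum -/
def W : Tree := fun l => l = [] ∨ Wk T (l.headD 0) l.tail

/-- the tree attached to a tuple -/
def A (c : List ℕ) : Tree := fun l => l = [] ∨ (l.headD 0 = 0 ∧ prd (V T c) (W T) l.tail) ∨
  (l.headD 0 ≠ 0 ∧ Wk T (l.headD 0 - 1) l.tail)

theorem sub_W (k) : sub (W T) [k] = Wk T k := by funext l; simp [sub, W]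
theorem sub_A0 (c) : sub (A T c) [0] = prd (V T c) (W T) := by funext l; simp [sub, A]
theorem sub_A (c k) : sub (A T c) [k + 1] = Wk T k := by funext l; simp [sub, A]

theorem pc_Wk (k) : PC (Wk T k) := by cases k <;> exact pc_cl _

theorem pc_of {P : Tree} (h0 : P []) (h : ∀ a, PC (sub P [a])) : PC P
  | [], _, _ => h0
  | a :: l, l', k => h a l l' k

theorem pc_W : PC (W T) := pc_of (.inl rfl) fun a => sub_W T a ▸ pc_Wk T a

theorem pc_prd {P Q : Tree} (h : PC P) (k : PC Q) : PC (prd P Q) := fun l l' j =>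
  ⟨h _ (l'.map c1) (by simpa using j.1), k _ (l'.map c2) (by simpa using j.2)⟩

theorem pc_A (c) : PC (A T c) := pc_of (.inl rfl) fun a => by
  cases a with
  | zero => exact sub_A0 T c ▸ pc_prd (pc_cl _) (pc_W T)
  | succ a => exact sub_A T c a ▸ pc_Wk T a

theorem Wk_len {k} {l : List ℕ} (h : l.length ≤ k) : Wk T k l := by
  cases k with
  | zero => exact fun j _ => by simp; omega
  | succ k => exact fun j _ => .inl (by simp; omega)

variable {T} {G : Subgroup (Equiv.Perm ℕ)}
  (hT : ∀ f g : ℕ → ℕ, (∀ n : ℕ, T (pf f n) (pf g n) = true) ↔ ∃ σ ∈ G, (⇑σ = f ∧ ⇑σ.symm = g))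
include hT

theorem br_V {c b} (h : Br (V T c) b) : ∃ σ ∈ G, ⇑σ = (fun i => c1 (b i)) ∧ c = pf σ c.length := by
  rw [V, br_cl] at h
  obtain ⟨σ, h1, h2, -⟩ := (hT (fun i => c1 (b i)) fun i => c2 (b i)).1 fun n => by
    simpa [map_pf] using (h n).1
  refine ⟨σ, h1, h2, List.ext_getElem (by simp) fun i k _ => ?_⟩
  have := ((h (i + 1)).2 i k).1 (by simp)
  rw [pf_getD _ (by simp), List.getD_eq_getElem _ _ k] at this
  simp [pf, h2, this]

theorem V_br {σ} (h : σ ∈ G) (n) : Br (V T (pf σ n)) fun i => Nat.pair (σ i) (σ.symm i) := by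
  rw [V, br_cl]
  refine fun m => ⟨by simpa [map_pf] using (hT _ _).2 ⟨σ, h, rfl, rfl⟩ m, fun i hi => ?_⟩
  rw [pf_length] at hi ⊢
  rw [pf_getD _ hi]
  exact ⟨fun k => by rw [pf_getD _ k]; simp, fun k => by rw [pf_getD _ k]; simp⟩

theorem V_nil (c) : V T c [] := fun k _ => ⟨by simpa [pf] using (hT _ _).2 ⟨1, G.one_mem, rfl, rfl⟩ 0,
  by simp⟩

theorem wf_Wk (k) : Wf (Wk T k) := by
  induction k with
  | zero => exact wf_of (Wk_len T le_rfl) fun f h => by simpa using br_cl.1 h 1
  | succ k ih =>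
    refine wf_of (Wk_len T (by simp)) fun f h => ?_
    have h1 : ∀ n, k + 1 ≤ n → QS T (fun j => Wk T k (dl j)) (dl (c1 (f 0))) (dl (c2 (f 0)))
        (pf (fun i => f (i + 1)) n) := fun n hn => by
      have := (br_cl.1 h (n + 1)).resolve_left (by simp; omega)
      simpa [pf_cons] using this
    generalize dl (c1 (f 0)) = c at h1
    generalize dl (c2 (f 0)) = c' at h1
    generalize (fun i => f (i + 1)) = x at h1
    have h2 : ∀ {P : Tree} {g : ℕ → ℕ}, PC P → (∀ n, k + 1 ≤ n → P ((pf x n).map g)) →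
        Br P fun i => g (x i) := fun {P g} hP h n => by
      have := h (n + (k + 1)) (by omega)
      rw [map_pf, ← List.take_append_drop n (pf _ _), take_pf _ (by omega)] at this
      exact hP _ _ this
    obtain ⟨σ, h3, h4, -⟩ := br_V hT (h2 (pc_cl _) fun n hn => (h1 n hn).2.1)
    obtain ⟨ρ, h5, -, h6⟩ := br_V hT (h2 (pc_cl _) fun n hn => (h1 n hn).2.2.1)
    have h7 : c = pf (σ⁻¹ * ρ : Equiv.Perm ℕ) c.length := List.ext_getElem (by simp) fun j hj _ => by
      have h8 := (h1 (c.getD j 0 + (k + 2)) (by omega)).1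
      have h9 := h8.2 j hj (by simp)
      rw [pf_getD _ (by omega), h6, pf_getD _ (h8.1 ▸ hj), List.getD_eq_getElem _ _ hj,
        ← congrFun h4] at h9
      simp [pf, ← h9]
    have h8 := V_br hT (G.mul_mem (G.inv_mem h3) h5) c.length
    rw [← h7] at h8
    generalize (fun i => Nat.pair ((σ⁻¹ * ρ) i) ((σ⁻¹ * ρ).symm i)) = b at h8
    let e : ℕ → List ℕ := fun n => dl (c1 (c2 (x (encode (pf b n)))))
    have h9 : ∀ n, Wk T k (e n) ∧ (e n).length = n ∧ ∀ m ≤ n, e m <+: e n := fun n => by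
      have h10 : ∀ m, ∀ N, k + 1 ≤ N → encode (pf b n) < N → encode (pf b m) < N → Wk T k (e n) ∧
          (e n).length = n ∧ (m ≤ n → e m <+: e n) := fun m N k1 k2 k3 => by
        obtain ⟨k4, k5, k6⟩ := ((h1 N k1).2.2.2 (encode (pf b n)) (by simpa)).resolve_left
          (by simpa using h8 n)
        have k7 := k6 (encode (pf b m)) (by simpa)
        rw [pf_getD _ k2] at k4 k5 k7
        rw [pf_getD _ k3] at k7
        refine ⟨k4, by simpa using k5, fun hm => k7 ?_⟩
        rw [dl_encode, dl_encode, ← take_pf b hm]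
        exact List.take_prefix _ _
      have := fun m => h10 m (k + 1 + encode (pf b n) + encode (pf b m) + 1) (by omega) (by omega)
        (by omega)
      exact ⟨(this 0).1, (this 0).2.1, fun m => (this m).2.2⟩
    refine ih.no_br (fun n => (e (n + 1)).getD n 0) fun n => ?_
    have : pf (fun n => (e (n + 1)).getD n 0) n = e n :=
      List.ext_getElem (by simp [(h9 n).2.1]) fun i k1 k2 => by
        have k3 : i < (e (i + 1)).length := by simp [(h9 _).2.1]
        simp only [pf, List.getElem_map, List.getElem_range, List.getD_eq_getElem _ _ k3]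
        exact ((h9 n).2.2 (i + 1) (by simpa using k1)).getElem k3
    exact this ▸ (h9 n).1

theorem wf_W : Wf (W T) := .mk _ fun a _ => sub_W T a ▸ wf_Wk hT a

theorem wf_A (c) : Wf (A T c) := .mk _ fun a ha => by
  cases a with
  | zero =>
    refine wf_of ha fun f h => (wf_W hT).no_br (fun i => c2 (f i)) fun n => ?_
    rw [sub_A0] at h
    simpa [map_pf] using (h n).2
  | succ a => exact sub_A T c a ▸ wf_Wk hT a

theorem closure {σ c k} (hσ : σ ∈ G) (h : Dom (V T c) (Wk T k)) :
    Dom (V T (c.map σ)) (Wk T (k + 1)) := by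
  obtain ⟨e, he⟩ := emb (wf_Wk hT k) (pc_cl _) (Wk_len T (by simp)) h
  let x : List ℕ → ℕ → ℕ := fun s i =>
    Nat.pair (Nat.pair (σ i) (σ.symm i)) (Nat.pair (encode (e (dl i))) (s.getD i 0))
  let a := Nat.pair (encode c) (encode (c.map σ))
  have h1 : ∀ s n, n ≤ s.length → V T (c.map σ) s → QS T (fun j => Wk T k (dl j)) c (c.map σ)
      (pf (x s) n) := fun s n hn hs => by
    refine ⟨⟨by simp, fun j hj k1 => ?_⟩, ?_, ?_, fun i hi => ?_⟩
    · rw [pf_length] at k1
      rw [pf_getD _ k1]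
      simp [x, List.getD_eq_getElem?_getD, hj]
    · rw [map_pf]
      simpa [x, pf] using V_br hT hσ 0 n
    · have : (pf (x s) n).map (fun x => c2 (c2 x)) = s.take n := by
        rw [map_pf, ← eq_pf s, take_pf _ hn, eq_pf s]
        simp [x]
      rw [this]
      exact pc_cl _ _ (s.drop n) (by rwa [List.take_append_drop])
    · rw [pf_length] at hi ⊢
      refine or_iff_not_imp_left.2 fun k1 => ?_
      obtain ⟨k2, k3, k4⟩ := he _ (not_not.1 k1)
      rw [pf_getD _ hi]
      refine ⟨by simpa [x] using k2, by simpa [x] using k3, fun j hj k5 => ?_⟩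
      rw [pf_getD _ hj]
      simpa [x] using k4 _ k5
  intro α hα
  refine (Ge.succ (a := a) (Wk_len T (by simp)) ?_).mono (lt_add_one α).le
  simpa [sub_sub, pf] using sim (P := V T (c.map σ)) (Q := sub (Wk T (k + 1)) [a])
    (fun s => pf (x s) s.length) (fun s hs j hj => by
      cases j with
      | zero => exact .inl (by simp)
      | succ j =>
        have hj' : j ≤ s.length := by simpa [Nat.lt_succ_iff] using hj
        refine .inr ?_
        simpa [a, take_pf _ hj'] using h1 s j hj' hs)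
    (fun s y => ⟨x (s ++ [y]) s.length, by
      rw [List.length_append, List.length_singleton, pf_succ]
      congr 1
      refine List.map_congr_left fun i hi => ?_
      simp [x, List.getD_eq_getElem?_getD, List.getElem?_append_left (List.mem_range.1 hi)]⟩) α [] hα

theorem dom_A {σ} (hσ : σ ∈ G) (c) : Dom (A T c) (A T (c.map σ)) := fun α hα => by
  refine ge_iff.2 ⟨.inl rfl, fun γ hγ => ?_⟩
  by_contra k
  push Not at k
  have k1 : ∀ j, ¬ Ge γ (Wk T j) := fun j => sub_A T _ j ▸ k (j + 1)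
  obtain ⟨a, ha⟩ := hα.ch hγ
  cases a with
  | succ a => exact k1 a (sub_A T c a ▸ ha)
  | zero =>
    rw [sub_A0, ge_prd] at ha
    have k2 := k 0
    rw [sub_A0, ge_prd] at k2
    obtain ⟨j, hj⟩ := exists_dom (P := V T (c.map σ)) (R := Wk T) fun β hβ => by
      obtain ⟨j, hj⟩ := ha.2.ch (not_le.1 fun j => k2 ⟨hβ.mono j, ha.2⟩)
      exact ⟨j, sub_W T j ▸ hj⟩
    have := closure hT (G.inv_mem hσ) hj
    simp only [List.map_map, Function.comp_def, Equiv.Perm.coe_inv, Equiv.symm_apply_apply,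
      List.map_id'] at this
    exact k1 _ (this _ ha.1)

theorem iso_A {σ} (hσ : σ ∈ G) (c) : Nonempty (lo (A T c) ≃r lo (A T (c.map σ))) :=
  lo_iso (wf_A hT _) (wf_A hT _) (pc_A T _) (pc_A T _) (.inl rfl) (.inl rfl) (dom_A hT hσ c) (by
    have := dom_A hT (G.inv_mem hσ) (c.map σ)
    simpa only [List.map_map, Function.comp_def, Equiv.Perm.coe_inv, Equiv.symm_apply_apply,
      List.map_id'] using this)

theorem mem_G (σ : Equiv.Perm ℕ) (h : ∀ n, ∃ f : {l // rep (A T (pf id n)) l} →
    {l // rep (A T (pf σ n)) l}, ∀ a b, lo _ a b → lo _ (f a) (f b)) : σ ∈ G := by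
  have h1 : ∀ n k : ℕ, Ge k (V T (pf σ n)) := fun n k => by
    by_contra j
    obtain ⟨f, hf⟩ := h n
    refine not_iso (wf_A hT _) (pc_A T _) (pc_A T _) (.inr (.inl ⟨rfl, V_nil hT _, .inl rfl⟩))
      (fun α hα => ?_) f hf
    rw [sub_A0, ge_prd]
    refine ⟨(V_br hT G.one_mem n).ge α, ge_iff.2 ⟨.inl rfl, fun γ hγ => ?_⟩⟩
    obtain ⟨a, ha⟩ := hα.ch hγ
    cases a with
    | succ a => exact ⟨a, sub_W T a ▸ sub_A T _ a ▸ ha⟩
    | zero =>
      rw [sub_A0, ge_prd] at ha
      exact ⟨k, sub_W T k ▸ (ge_len k fun l => Wk_len T).mono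
        (not_le.1 fun i => j (ha.1.mono i)).le⟩
  obtain ⟨ρ, h2, h3, -⟩ := (hT σ σ.symm).1 fun k => by
    let n := k + ∑ i ∈ Finset.range k, (σ.symm i + 1)
    obtain ⟨l, rfl, hl⟩ := (h1 n k).node
    obtain ⟨h4, h5⟩ := hl.self
    rw [pf_length] at h5
    convert h4 using 2
    · refine List.ext_getElem (by simp) fun i k1 _ => ?_
      rw [pf_length] at k1
      have := (h5 i (by omega)).1 k1
      rw [pf_getD _ (by omega), List.getD_eq_getElem _ _ k1] at this
      simp [pf, this]
    · refine List.ext_getElem (by simp) fun i k1 _ => ?_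
      rw [pf_length] at k1
      have k2 : σ.symm i < n := by
        have := Finset.single_le_sum (f := fun i => σ.symm i + 1) (fun _ _ => Nat.zero_le _)
          (Finset.mem_range.2 k1)
        omega
      have := (h5 _ k2).2
      rw [pf_getD _ k2, Equiv.apply_symm_apply, List.getD_eq_getElem _ _ k1] at this
      simp [pf, this k1]
  rwa [← Equiv.coe_inj.1 h3]

end Pool.Agent.H.MP_c89ac5_lc
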