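import Pool.Agent.H.MP_fed070_lc.Germ

namespace Pool.Agent.H.MP_c89ac5_lc

open Pool.Agent.H.MP_fed070_lc (pf pf_succ pf_length take_pf)

/-- trees as predicates on strings -/
abbrev Tree := List ℕ → Prop

/-- subtree above a string -/
def sub (P : Tree) (s : List ℕ) : Tree := fun l => P (s ++ l)

/-- rank at least an ordinal -/
def Ge (α : Ordinal.{0}) (P : Tree) : Prop := P [] ∧ ∀ β < α, ∃ a, Ge β (sub P [a])
termination_by α

/-- well-founded trees -/
inductive Wf : Tree → Prop
  | mk (P : Tree) : (∀ a, P [a] → Wf (sub P [a])) → Wf P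

/-- rank domination -/
def Dom (P Q : Tree) : Prop := ∀ α, Ge α P → Ge α Q

/-- closed under initial segments -/
def PC (P : Tree) : Prop := ∀ l l', P (l ++ l') → P l

/-- branches -/
def Br (P : Tree) (f : ℕ → ℕ) : Prop := ∀ n, P (pf f n)

variable {P Q : Tree} {α β : Ordinal.{0}}

theorem ge_iff : Ge α P ↔ P [] ∧ ∀ β < α, ∃ a, Ge β (sub P [a]) := by rw [Ge]

theorem Ge.root (h : Ge α P) : P [] := (ge_iff.1 h).1
theorem Ge.ch (h : Ge α P) (k : β < α) : ∃ a, Ge β (sub P [a]) := (ge_iff.1 h).2 β k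
theorem Ge.mono (h : Ge α P) (k : β ≤ α) : Ge β P :=
  ge_iff.2 ⟨h.root, fun _ j => h.ch (j.trans_le k)⟩
theorem Ge.succ {a} (h0 : P []) (h : Ge α (sub P [a])) : Ge (α + 1) P :=
  ge_iff.2 ⟨h0, fun _ k => ⟨a, h.mono (Order.lt_add_one_iff.1 k)⟩⟩
theorem Ge.sup {f : ℕ → Ordinal.{0}} (h : ∀ n, Ge (f n) P) : Ge (⨆ n, f n) P :=
  ge_iff.2 ⟨(h 0).root, fun _ k => by
    obtain ⟨n, hn⟩ := (Ordinal.lt_iSup_iff).1 k
    exact (h n).ch hn⟩

theorem sub_sub (s t) : sub (sub P s) t = sub P (s ++ t) := by funext l; simp [sub]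
theorem PC.sub (h : PC P) (s) : PC (sub P s) := fun l l' k =>
  h (s ++ l) l' (by simpa [H.MP_c89ac5_lc.sub] using k)

theorem exists_dom {R : ℕ → Tree} (h : ∀ α, Ge α P → ∃ a, Ge α (R a)) :
    ∃ a, Dom P (R a) := by
  by_contra k
  simp only [Dom, not_exists, not_forall] at k
  choose f h1 h2 using k
  obtain ⟨a, ha⟩ := h _ (Ge.sup h1)
  exact h2 a (ha.mono (Ordinal.le_iSup f a))

theorem Dom.child (h : Dom P Q) (h0 : P []) (a : ℕ) :
    ∃ b, P [a] → Q [b] ∧ Dom (sub P [a]) (sub Q [b]) := by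
  by_cases k : P [a]
  · obtain ⟨b, hb⟩ := exists_dom (P := sub P [a]) (R := fun b => sub Q [b]) fun α k =>
      (h _ (k.succ h0)).ch (lt_add_one α)
    exact ⟨b, fun _ => ⟨(hb 0 (ge_iff.2 ⟨k, by simp⟩)).root, hb⟩⟩
  · exact ⟨0, fun j => absurd j k⟩

theorem pf_cons (f : ℕ → ℕ) (n) : pf f (n + 1) = f 0 :: pf (fun i => f (i + 1)) n := by
  simp [pf, List.range_succ_eq_map]

theorem Br.sub {f} (h : Br P f) : Br (sub P [f 0]) fun i => f (i + 1) := fun n => by
  have := h (n + 1)
  rwa [pf_cons] at this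

theorem Br.ge {f} (h : Br P f) (α) : Ge α P := by
  induction α using WellFoundedLT.induction generalizing P f with
  | _ α ih => exact ge_iff.2 ⟨h 0, fun β k => ⟨f 0, ih β k h.sub⟩⟩

theorem Wf.no_br (h : Wf P) (f) : ¬ Br P f := by
  induction h generalizing f with
  | mk P _ ih => exact fun k => ih (f 0) (k 1) _ k.sub

theorem wf_of (h0 : P []) (h : ∀ f, ¬ Br P f) : Wf P := by
  by_contra k
  have h1 : ∀ s, ¬ Wf (sub P s) → ∃ a, P (s ++ [a]) ∧ ¬ Wf (sub P (s ++ [a])) := fun s k => by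
    by_contra j
    push Not at j
    exact k (.mk _ fun a ha => sub_sub s [a] ▸ j a ha)
  choose! F hF using h1
  let s : ℕ → List ℕ := fun n => Nat.rec [] (fun _ σ => σ ++ [F σ]) n
  have h3 : ∀ n, P (s n) ∧ ¬ Wf (sub P (s n)) := fun n => by
    induction n with
    | zero => exact ⟨h0, k⟩
    | succ n ih => exact hF _ ih.2
  have h4 : ∀ n, pf (fun n => F (s n)) n = s n := fun n => by
    induction n with
    | zero => rfl
    | succ n ih => rw [pf_succ, ih]
  exact h (fun n => F (s n)) fun n => h4 n ▸ (h3 n).1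

theorem sim (h : List ℕ → List ℕ) (h1 : ∀ s, P s → Q (h s))
    (h2 : ∀ s x, ∃ y, h (s ++ [x]) = h s ++ [y]) (α) (s) : Ge α (sub P s) → Ge α (sub Q (h s)) := by
  induction α using WellFoundedLT.induction generalizing s with
  | _ α ih =>
    refine fun k => ge_iff.2 ⟨by simpa [sub] using h1 s (by simpa [sub] using k.root), fun β j => ?_⟩
    obtain ⟨a, ha⟩ := k.ch j
    obtain ⟨y, hy⟩ := h2 s a
    rw [sub_sub] at ha
    exact ⟨y, by rw [sub_sub, ← hy]; exact ih β j _ ha⟩

theorem emb (hQ : Wf Q) (hP : PC P) (h0 : Q []) (h : Dom P Q) : ∃ e : List ℕ → List ℕ,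
    ∀ s, P s → Q (e s) ∧ (e s).length = s.length ∧ ∀ t, t <+: s → e t <+: e s := by
  induction hQ generalizing P with
  | mk Q _ ih =>
    by_cases k : P []
    · choose b hb using h.child k
      choose! e he using fun a (j : P [a]) => ih (b a) (hb a j).1 (hP.sub [a]) (hb a j).1 (hb a j).2
      refine ⟨fun s => s.casesOn [] fun a t => b a :: e a t, fun s hs => ?_⟩
      cases s with
      | nil => exact ⟨h0, rfl, fun t ht => by rw [List.eq_nil_of_prefix_nil ht]⟩
      | cons a s =>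
        obtain ⟨h1, h2, h3⟩ := he a (hP [a] s hs) s hs
        refine ⟨h1, by simp [h2], fun t ht => ?_⟩
        cases t with
        | nil => exact List.nil_prefix
        | cons c t =>
          obtain ⟨rfl, h4⟩ := List.cons_prefix_cons.1 ht
          exact List.cons_prefix_cons.2 ⟨rfl, h3 t h4⟩
    · exact ⟨id, fun s hs => absurd (hP [] s hs) k⟩

/-- first component -/
def c1 (x : ℕ) : ℕ := x.unpair.1
/-- second component -/
def c2 (x : ℕ) : ℕ := x.unpair.2

@[simp] theorem c1_pair (a b) : c1 (Nat.pair a b) = a := by simp [c1]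
@[simp] theorem c2_pair (a b) : c2 (Nat.pair a b) = b := by simp [c2]

/-- product of trees -/
def prd (P Q : Tree) : Tree := fun l => P (l.map c1) ∧ Q (l.map c2)

theorem ge_prd : Ge α (prd P Q) ↔ Ge α P ∧ Ge α Q := by
  induction α using WellFoundedLT.induction generalizing P Q with
  | _ α ih =>
    have e : ∀ a, sub (prd P Q) [a] = prd (sub P [c1 a]) (sub Q [c2 a]) := fun a => rfl
    refine ⟨fun h => ⟨ge_iff.2 ⟨h.root.1, fun β k => ?_⟩, ge_iff.2 ⟨h.root.2, fun β k => ?_⟩⟩,
      fun h => ge_iff.2 ⟨⟨h.1.root, h.2.root⟩, fun β k => ?_⟩⟩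
    · obtain ⟨a, ha⟩ := h.ch k
      exact ⟨_, ((ih β k).1 (e a ▸ ha)).1⟩
    · obtain ⟨a, ha⟩ := h.ch k
      exact ⟨_, ((ih β k).1 (e a ▸ ha)).2⟩
    · obtain ⟨a, ha⟩ := h.1.ch k
      obtain ⟨b, hb⟩ := h.2.ch k
      exact ⟨Nat.pair a b, by rw [e, ih β k]; simpa using ⟨ha, hb⟩⟩

theorem ge_len (n : ℕ) (h : ∀ l : List ℕ, l.length ≤ n → P l) : Ge n P := by
  induction n generalizing P with
  | zero => exact ge_iff.2 ⟨h _ le_rfl, by simp⟩
  | succ n ih =>
    push_cast
    exact Ge.succ (a := 0) (h _ (by simp)) (ih fun l k => h _ (by simpa using k))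

theorem Ge.node {n : ℕ} (h : Ge n P) : ∃ l, l.length = n ∧ P l := by
  induction n generalizing P with
  | zero => exact ⟨[], rfl, h.root⟩
  | succ n ih =>
    obtain ⟨a, ha⟩ := h.ch (β := n) (by exact_mod_cast n.lt_succ_self)
    obtain ⟨l, h1, h2⟩ := ih ha
    exact ⟨a :: l, by simp [h1], h2⟩

/-- the Kleene-Brouwer order -/
def kb : List ℕ → List ℕ → Prop
  | [], _ => False
  | _ :: _, [] => True
  | a :: l, b :: m => a < b ∨ (a = b ∧ kb l m)

theorem kb_trans : ∀ {a b c : List ℕ}, kb a b → kb b c → kb a c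
  | [], _, _, h, _ => h.elim
  | _ :: _, [], _, _, h => h.elim
  | _ :: _, _ :: _, [], _, _ => trivial
  | _ :: _, _ :: _, _ :: _, h, k => by
    rcases h with h | ⟨rfl, h⟩ <;> rcases k with k | ⟨rfl, k⟩
    exacts [.inl (h.trans k), .inl h, .inl k, .inr ⟨rfl, kb_trans h k⟩]

theorem kb_tri : ∀ a b : List ℕ, ¬ kb a b → ¬ kb b a → a = b
  | [], [], _, _ => rfl
  | [], _ :: _, _, h => (h trivial).elim
  | _ :: _, [], h, _ => (h trivial).elim
  | x :: a, y :: b, h, k => by
    simp only [kb, not_or, not_and] at h k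
    obtain rfl : x = y := by omega
    rw [kb_tri a b (h.2 rfl) (k.2 rfl)]

/-- the tree with every child repeated infinitely often -/
def rep (P : Tree) : Tree := fun l => P (l.map c2)

theorem kb_acc (h : Wf P) (hP : PC P) (l) (hl : rep P l) :
    Acc (fun a b => rep P a ∧ kb a b) l := by
  induction h generalizing l with
  | mk P _ ih =>
    have key : ∀ a l, rep P (a :: l) → Acc (fun a b => rep P a ∧ kb a b) (a :: l) := fun a => by
      induction a using Nat.strong_induction_on with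
      | _ a iha =>
        intro l hl
        have := ih (c2 a) (hP [c2 a] _ hl) (hP.sub _) l hl
        induction this with
        | intro l _ ihl =>
          refine ⟨_, fun m hm => ?_⟩
          obtain ⟨h1, h2⟩ := hm
          cases m with
          | nil => exact h2.elim
          | cons b m =>
            rcases h2 with h2 | ⟨rfl, h2⟩
            · exact iha b h2 m h1
            · exact ihl m ⟨h1, h2⟩ h1
    cases l with
    | cons a l => exact key a l hl
    | nil =>
      refine ⟨_, fun m hm => ?_⟩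
      cases m with
      | nil => exact hm.2.elim
      | cons b m => exact key b m hm.1

/-- the order attached to a tree -/
def lo (P : Tree) (a b : {l // rep P l}) : Prop := kb a.1 b.1

theorem lo_wo (h : Wf P) (hP : PC P) : IsWellOrder _ (lo P) where
  trichotomous a b h k := Subtype.ext (kb_tri _ _ h k)
  wf := ⟨fun a => Subrelation.accessible (r := InvImage (fun a b => rep P a ∧ kb a b) Subtype.val)
    (fun {x _} k => ⟨x.2, k⟩) (InvImage.accessible _ (kb_acc h hP a.1 a.2))⟩

theorem kb_emb (hQ : Wf Q) (hP : PC P) (h0 : Q []) (h : Dom P Q) : ∃ e : List ℕ → List ℕ,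
    (∀ s, rep P s → rep Q (e s)) ∧ ∀ s t, rep P s → rep P t → kb s t → kb (e s) (e t) := by
  induction hQ generalizing P with
  | mk Q _ ih =>
    by_cases k : P []
    · choose b hb using h.child k
      choose! e he using fun a (j : P [a]) => ih (b a) (hb a j).1 (hP.sub [a]) (hb a j).1 (hb a j).2
      obtain ⟨φ, h1, h2⟩ := Filter.extraction_forall_of_frequently
        (P := fun n k => c2 k = b (c2 n)) fun n => Filter.frequently_atTop.2 fun m =>
          ⟨Nat.pair m (b (c2 n)), Nat.left_le_pair _ _, by simp⟩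
      refine ⟨fun s => s.casesOn [] fun a t => φ a :: e (c2 a) t, fun s hs => ?_,
        fun s t hs ht j => ?_⟩
      · cases s with
        | nil => exact h0
        | cons a s =>
          have := (he _ (hP [c2 a] _ hs)).1 s hs
          rw [← h2] at this
          exact this
      · cases s with
        | nil => exact j.elim
        | cons a s =>
          cases t with
          | nil => trivial
          | cons c t =>
            rcases j with j | ⟨rfl, j⟩
            · exact .inl (h1 j)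
            · exact .inr ⟨rfl, (he _ (hP [c2 a] _ hs)).2 s t hs ht j⟩
    · exact ⟨id, fun s hs => absurd (hP [] _ hs) k, fun s _ hs => absurd (hP [] _ hs) k⟩

theorem lo_iso (hP : Wf P) (hQ : Wf Q) (kP : PC P) (kQ : PC Q) (jP : P []) (jQ : Q [])
    (h : Dom P Q) (k : Dom Q P) : Nonempty (lo P ≃r lo Q) := by
  have := lo_wo hP kP
  have := lo_wo hQ kQ
  obtain ⟨e, h1, h2⟩ := kb_emb hQ kP jQ h
  obtain ⟨e', h3, h4⟩ := kb_emb hP kQ jP k
  exact Ordinal.type_eq.1 (le_antisymm
    (RelEmbedding.ofMonotone (r := lo P) (s := lo Q) (fun a => ⟨e a.1, h1 _ a.2⟩)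
      fun a b => h2 _ _ a.2 b.2).ordinal_type_le
    (RelEmbedding.ofMonotone (r := lo Q) (s := lo P) (fun a => ⟨e' a.1, h3 _ a.2⟩)
      fun a b => h4 _ _ a.2 b.2).ordinal_type_le)

theorem not_iso (hP : Wf P) (kP : PC P) (kQ : PC Q) (jP : P [0]) (h : Dom Q (sub P [0]))
    (f : {l // rep P l} → {l // rep Q l}) (hf : ∀ a b, lo P a b → lo Q (f a) (f b)) : False := by
  have hP' : Wf (sub P [0]) := by cases hP with | mk _ k => exact k 0 jP
  obtain ⟨e, h1, h2⟩ := kb_emb hP' kQ jP h
  let g : {l // rep P l} → {l // rep P l} := fun a => ⟨0 :: e (f a).1, h1 _ (f a).2⟩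
  have h3 : ∀ a, ¬ lo P (g a) a := fun a => by
    induction a using (lo_wo hP kP).wf.induction with
    | _ a ih => exact fun k => ih _ k (.inr ⟨rfl, h2 _ _ (f _).2 (f _).2 (hf _ _ k)⟩)
  exact h3 ⟨[], kP [] _ jP⟩ trivial

end Pool.Agent.H.MP_c89ac5_lc
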