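import Pool.Agent.H.MP_c89ac5_lc.Inv

namespace Pool.Agent.H.MP_c89ac5_lc

open Encodable Pool.Agent.Lib.PR Pool.Agent.Lib.helper21.CPred Pool.Agent.Lib.helper26.Low Sum
open Pool.Agent.H.MP_fed070_lc (pf pf_succ pf_length take_pf dl dl_encode encode_dl p_dl p_llt c_tab)

attribute [local irreducible] Primrec Computable

section
variable {α : Type} [Primcodable α]
theorem cp {p : α → Prop} (h : Primrec fun a => cd (p a)) : ComputablePred p :=
  (pred h).computablePred
@[fun_prop] theorem p_c1 {f : α → ℕ} (hf : Primrec f) : Primrec fun a => c1 (f a) := by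
  unfold c1; fun_prop
@[fun_prop] theorem p_c2 {f : α → ℕ} (hf : Primrec f) : Primrec fun a => c2 (f a) := by
  unfold c2; fun_prop
theorem c_cl {Q : α → Tree} (h : ComputablePred fun p : α × List ℕ => Q p.1 p.2) :
    ComputablePred fun p : α × List ℕ => Cl (Q p.1) p.2 :=
  call (ccomp h (f := fun z : (α × List ℕ) × ℕ => (z.1.1, z.1.2.take z.2)) (c_prim (by fun_prop)))
    (c_prim (by fun_prop))

theorem kb_iff : ∀ a b : List ℕ, kb a b ↔ ¬ a <+: b ∧ (b <+: a ∨ a < b)
  | [], _ => by simp [kb]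
  | _ :: _, [] => by simp [kb]
  | x :: a, y :: b => by
    simp only [kb, kb_iff a b, List.cons_prefix_cons, List.cons_lt_cons_iff]
    rcases lt_trichotomy x y with h | rfl | h
    · simp [h, h.ne]
    · simp
    · simp [h.not_gt, h.ne, h.ne']

@[fun_prop] theorem p_kb {f g : α → List ℕ} (hf : Primrec f) (hg : Primrec g) :
    Primrec fun a => cd (kb (f a) (g a)) := by simp only [kb_iff]; fun_prop

theorem c_lmap {f : ℕ → α} (hf : Computable f) : Computable fun l : List ℕ => l.map f := by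
  have h : Primrec fun p : List ℕ × List α => p.1.map fun x => p.2.getD x (f 0) := by fun_prop
  refine (h.to_comp.comp (Computable.id.pair ((c_tab hf).comp
    (c_prim (f := fun l : List ℕ => l.sum + 1) (by fun_prop))))).of_eq fun l =>
      List.map_congr_left fun x hx => ?_
  have : x ≤ l.sum := List.single_le_sum (fun _ _ => Nat.zero_le _) _ hx
  simp [List.getD_eq_getElem?_getD, Nat.lt_succ_of_le this]
end

theorem lt_encode {x : ℕ} : ∀ {l : List ℕ}, x ∈ l → x < encode l
  | a :: l, h => by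
    rw [encode_list_cons]
    rcases List.mem_cons.1 h with rfl | h
    · exact Nat.lt_succ_of_le (Nat.left_le_pair _ _)
    · exact (lt_encode h).trans (Nat.lt_succ_of_le (Nat.right_le_pair _ _))

variable {T : List ℕ → List ℕ → Bool}

theorem cV (hc : Computable₂ T) : ComputablePred fun p : List ℕ × List ℕ => V T p.1 p.2 :=
  c_cl (Q := fun (c : List ℕ) l => T (l.map c1) (l.map c2) = true ∧ ∀ i < c.length,
    (i < l.length → c1 (l.getD i 0) = c.getD i 0) ∧
      (c.getD i 0 < l.length → c2 (l.getD (c.getD i 0) 0) = i))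
    (cand (ceq (hc.comp (c_prim (by fun_prop)) (c_prim (by fun_prop))) (.const true))
      (cp (by fun_prop)))

theorem QS_congr {U U' : ℕ → Prop} {c c' m : List ℕ} (h : ∀ x ∈ m, ∀ j ≤ x, U j ↔ U' j) :
    QS T U c c' m ↔ QS T U' c c' m := by
  unfold QS
  refine and_congr_right fun _ => and_congr_right fun _ => and_congr_right fun _ =>
    forall₂_congr fun i hi => or_congr_right (and_congr_left fun _ => h (m.getD i 0) ?_ _ ?_)
  · rw [List.getD_eq_getElem _ _ hi]; exact List.getElem_mem hi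
  · exact (Nat.unpair_left_le _).trans (Nat.unpair_right_le _)

theorem cW (hc : Computable₂ T) : ComputablePred (W T) := by
  have h1 : ComputablePred fun p : (List Bool × ℕ) × List ℕ => p.2.length ≤ p.1.2 ∨ (p.1.2 ≠ 0 ∧
      QS T (fun j => p.1.1.getD (Nat.pair (p.1.2 - 1) j + 1) false = true)
        (dl (c1 (p.2.headD 0))) (dl (c2 (p.2.headD 0))) p.2.tail) :=
    cor (cp (by fun_prop)) (cand (cp (by fun_prop)) (cand (cp (by fun_prop))
      (cand (ccomp (cV hc) (f := fun p : (List Bool × ℕ) × List ℕ => ([], p.2.tail.map c1))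
        (c_prim (by fun_prop)))
      (cand (ccomp (cV hc) (f := fun p : (List Bool × ℕ) × List ℕ =>
        (dl (c2 (p.2.headD 0)), p.2.tail.map fun x => c2 (c2 x))) (c_prim (by fun_prop)))
      (call (cor (ccomp (cV hc) (f := fun p : ((List Bool × ℕ) × List ℕ) × ℕ =>
        (dl (c1 (p.1.2.headD 0)), dl p.2)) (c_prim (by fun_prop))).not (cp (by fun_prop)))
        (c_prim (by fun_prop)))))))
  obtain ⟨g, hg, e⟩ := ComputablePred.computable_iff.1 (cor (cp (p := fun t : List Bool =>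
    dl t.length = []) (by fun_prop)) (ccomp (c_cl (Q := fun (p : List Bool × ℕ) l => l.length ≤ p.2 ∨ (p.2 ≠ 0 ∧
      QS T (fun j => p.1.getD (Nat.pair (p.2 - 1) j + 1) false = true)
        (dl (c1 (l.headD 0))) (dl (c2 (l.headD 0))) l.tail)) h1) (f := fun t : List Bool =>
      ((t, (dl t.length).headD 0), (dl t.length).tail)) (c_prim (by fun_prop))))
  have h2 := Computable.nat_strong_rec (fun (_ : Unit) n => cd (W T (dl n)))
    (g := fun _ t => some (g t)) (Computable.option_some.comp (hg.comp Computable.snd))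
    fun _ n => by
      congr 1
      rw [Bool.eq_iff_iff, ← congrFun e, cd_true]
      simp only [List.length_map, List.length_range]
      obtain ⟨l, rfl⟩ : ∃ l : List ℕ, encode l = n := ⟨_, encode_dl n⟩
      rw [dl_encode]
      cases l with
      | nil => simp [W]
      | cons k l =>
        cases k with
        | zero => simp [W, Wk]
        | succ k =>
          simp only [W, Wk, List.headD_cons, List.tail_cons, reduceCtorEq, false_or, ne_eq,
            Nat.add_eq_zero_iff, one_ne_zero, and_false, not_false_eq_true, true_and,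
            Nat.add_sub_cancel]
          refine forall₂_congr fun i _ => or_congr_right (QS_congr fun x hx j hj => ?_)
          have h3 := lt_encode (List.mem_of_mem_take (List.mem_of_mem_tail hx))
          have h4 : Nat.pair k j + 1 < encode ((k + 1) :: l) := Nat.succ_lt_succ
            ((Nat.pair_lt_pair_left j k.lt_succ_self).trans
              (Nat.pair_lt_pair_right _ (hj.trans_lt h3)))
          have h5 : dl (Nat.pair k j + 1) = k :: dl j := by
            rw [← dl_encode (k :: dl j), encode_list_cons, encode_dl]; rfl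
          rw [List.getD_eq_getElem _ _ (by simpa using h4)]
          simp [h5]
  exact ComputablePred.computable_iff.2 ⟨fun l => cd (W T (dl (encode l))),
    h2.comp (.const ()) Computable.encode, funext fun l => by simp⟩

theorem cA (hc : Computable₂ T) : ComputablePred fun p : List ℕ × List ℕ => A T p.1 p.2 :=
  cor (cp (by fun_prop)) (cor (cand (cp (by fun_prop)) (cand
    (ccomp (cV hc) (f := fun p : List ℕ × List ℕ => (p.1, p.2.tail.map c1)) (c_prim (by fun_prop)))
    (ccomp (cW hc) (c_prim (by fun_prop))))) (cand (cp (by fun_prop))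
    ((ccomp (cW hc) (f := fun p : List ℕ × List ℕ => (p.2.headD 0 - 1) :: p.2.tail)
      (c_prim (by fun_prop))).of_eq fun p => by simp [W])))

variable (T) in
/-- the domain of the structure -/
abbrev F := ℕ ⊕ Σ c : List ℕ, {l // rep (A T c) l}

/-- the relations of the structure -/
def RF (i : ℕ) (L : List (F T)) : Prop :=
  (i = 0 ∧ ∃ c l, L = inr ⟨c, l⟩ :: c.map inl) ∨
    (i = 1 ∧ ∃ c l m, L = [inr ⟨c, l⟩, inr ⟨c, m⟩] ∧ lo _ l m)

/-- codes of elements -/
def code : F T → ℕ × List ℕ × List ℕ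
  | inl n => (n + 1, [], [])
  | inr x => (0, x.1, x.2.1)

theorem code_inj : Function.Injective (code (T := T))
  | inl _, inl _, h => by simpa [code] using h
  | inl _, inr _, h => by simp [code] at h
  | inr _, inl _, h => by simp [code] at h
  | inr ⟨c, l⟩, inr ⟨c', l'⟩, h => by
    simp only [code, Prod.mk.injEq, true_and] at h
    obtain ⟨rfl, h⟩ := h
    rw [Subtype.ext h]

theorem exists_pres (hc : Computable₂ T) : ∃ e : ℕ ≃ F T,
    ComputablePred fun p : ℕ × List ℕ => RF p.1 (p.2.map e) := by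
  classical
  let ν : ℕ × List ℕ × List ℕ → F T := fun a =>
    if h : a.1 = 0 ∧ rep (A T a.2.1) a.2.2 then inr ⟨a.2.1, a.2.2, h.2⟩ else inl (a.1 - 1)
  have h1 : Computable fun a => code (ν a) :=
    (cite (p := fun a : ℕ × List ℕ × List ℕ => a.1 = 0 ∧ rep (A T a.2.1) a.2.2)
      (cand (cp (by fun_prop)) (ccomp (cA hc) (f := fun a : ℕ × List ℕ × List ℕ =>
        (a.2.1, a.2.2.map c2)) (c_prim (by fun_prop)))) Computable.id
      (c_prim (f := fun a : ℕ × List ℕ × List ℕ => (a.1 - 1 + 1, [], [])) (by fun_prop))).of_eq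
      fun a => by
        simp only [ν]
        split_ifs with h
        · simp [code, ← h.1]
        · rfl
  obtain ⟨e, r, -, hr, -, h2, -⟩ := pres' (0, [], []) ν (fun x => ⟨code x, by
      rcases x with n | ⟨c, l, h⟩
      · simp [ν, code]
      · simp [ν, code, h]⟩)
    ((ceq (h1.comp Computable.fst) (h1.comp Computable.snd)).of_eq fun p => code_inj.eq_iff)
  have h3 : Primrec fun p : ℕ × List (ℕ × List ℕ × List ℕ) => cd ((p.1 = 0 ∧
      (p.2.headD (1, [], [])).1 = 0 ∧
        p.2.tail = (p.2.headD (1, [], [])).2.1.map fun n => (n + 1, [], [])) ∨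
      (p.1 = 1 ∧ p.2.length = 2 ∧ (p.2.getD 0 (1, [], [])).1 = 0 ∧ (p.2.getD 1 (1, [], [])).1 = 0 ∧
        (p.2.getD 0 (1, [], [])).2.1 = (p.2.getD 1 (1, [], [])).2.1 ∧
          kb (p.2.getD 0 (1, [], [])).2.2 (p.2.getD 1 (1, [], [])).2.2)) := by fun_prop
  refine ⟨e, (ccomp (cp h3) (Computable.fst.pair ((c_lmap (h1.comp hr)).comp
    Computable.snd))).of_eq fun p => ?_⟩
  have h4 : (p.2.map fun a => code (ν (r a))) = (p.2.map e).map code := by simp [h2]
  simp only [h4]
  generalize p.2.map e = L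
  refine or_congr (and_congr_right fun _ => ?_) (and_congr_right fun _ => ?_)
  · constructor
    · rintro ⟨h5, h6⟩
      rcases L with _ | ⟨n | ⟨c, l⟩, L⟩
      · simp at h5
      · simp [code] at h5
      · refine ⟨c, l, congrArg _ (List.map_injective_iff.2 code_inj ?_)⟩
        simpa [code, Function.comp_def] using h6
    · rintro ⟨c, l, rfl⟩
      simp [code]
  · constructor
    · rintro ⟨h5, h6, h7, h8, h9⟩
      obtain ⟨x, y, rfl⟩ := List.length_eq_two.1 (by simpa using h5 : L.length = 2)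
      rcases x with n | ⟨c, l⟩
      · simp [code] at h6
      rcases y with n | ⟨c', l'⟩
      · simp [code] at h7
      obtain rfl : c = c' := h8
      exact ⟨c, l, l', rfl, h9⟩
    · rintro ⟨c, l, m, rfl, h⟩
      exact ⟨rfl, rfl, rfl, rfl, h⟩

/-- automorphisms -/
def Pres (τ : Equiv.Perm (F T)) : Prop := ∀ i L, RF i (L.map τ) ↔ RF i L

theorem Pres.inv {τ : Equiv.Perm (F T)} (h : Pres τ) : Pres τ⁻¹ := fun i L => by
  rw [← h, List.map_map]
  simp [Function.comp_def]

theorem Pres.mul {τ ρ : Equiv.Perm (F T)} (h : Pres τ) (k : Pres ρ) : Pres (τ * ρ) := fun i L => by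
  rw [Equiv.Perm.coe_mul, ← List.map_map, h, k]

theorem Pres.fib {τ : Equiv.Perm (F T)} (h : Pres τ) {c c' : List ℕ} (s : ℕ → ℕ)
    (h1 : ∀ n ∈ c, τ (inl n) = inl (s n)) (h2 : c' = c.map s) :
    ∃ f : {l // rep (A T c) l} → {l // rep (A T c') l},
      (∀ a, τ (inr ⟨c, a⟩) = inr ⟨c', f a⟩) ∧ ∀ a b, lo _ a b → lo _ (f a) (f b) := by
  have : ∀ a, ∃ b, τ (inr ⟨c, a⟩) = inr ⟨c', b⟩ := fun a => by
    obtain ⟨-, d, b, h3⟩ := ((h 0 _).2 (.inl ⟨rfl, c, a, rfl⟩)).resolve_right (by simp)
    simp only [List.map_cons, List.cons.injEq, List.map_map] at h3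
    obtain rfl : d = c' := by
      rw [h2]
      refine List.map_injective_iff.2 (inl_injective (β := Σ c : List ℕ, {l // rep (A T c) l})) ?_
      rw [← h3.2, List.map_map]
      exact List.map_congr_left h1
    exact ⟨b, h3.1⟩
  choose f hf using this
  refine ⟨f, hf, fun a b k => ?_⟩
  obtain ⟨-, d, l, m, h3, h4⟩ := ((h 1 _).2 (.inr ⟨rfl, c, a, b, rfl, k⟩)).resolve_left (by simp)
  simp only [List.map_cons, hf, List.map_nil, List.cons.injEq, inr.injEq, Sigma.mk.injEq,
    and_true] at h3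
  obtain ⟨⟨rfl, h5⟩, -, h6⟩ := h3
  rwa [eq_of_heq h5, eq_of_heq h6]

theorem Pres.pt {τ : Equiv.Perm (F T)} (h : Pres τ) (n : ℕ) : ∃ m, τ (inl n) = inl m := by
  rcases e : τ (inl n) with m | ⟨c, l⟩
  · exact ⟨m, rfl⟩
  · obtain ⟨-, d, b, h3⟩ := ((h.inv 0 _).2 (.inl ⟨rfl, c, l, rfl⟩)).resolve_right (by simp)
    simp [← e] at h3

variable {G : Subgroup (Equiv.Perm ℕ)}
  (hT : ∀ f g : ℕ → ℕ, (∀ n : ℕ, T (pf f n) (pf g n) = true) ↔ ∃ σ ∈ G, (⇑σ = f ∧ ⇑σ.symm = g))
include hT

theorem Pres.res {τ : Equiv.Perm (F T)} (h : Pres τ) : ∃ σ ∈ G, ∀ n, τ (inl n) = inl (σ n) := by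
  choose f hf using h.pt
  choose g hg using h.inv.pt
  let σ : Equiv.Perm ℕ := ⟨f, g, fun n => inl_injective (by rw [← hg, ← hf]; simp),
    fun n => inl_injective (by rw [← hf, ← hg]; simp)⟩
  exact ⟨σ, mem_G hT σ fun n => (h.fib f (fun n _ => hf n) (by rw [map_pf]; rfl)).imp
    fun _ k => k.2, hf⟩

theorem Pres.uniq {τ ρ : Equiv.Perm (F T)} (h : Pres τ) (k : Pres ρ) {c : List ℕ}
    (h1 : ∀ n ∈ c, τ (inl n) = ρ (inl n)) (a) : τ (inr ⟨c, a⟩) = ρ (inr ⟨c, a⟩) := by
  have key : ∀ f : {l // rep (A T c) l} → {l // rep (A T c) l},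
      (∀ a b, lo _ a b → lo _ (f a) (f b)) → ∀ a, ¬ lo _ (f a) a := fun f hf a => by
    induction a using (lo_wo (wf_A hT c) (pc_A T c)).wf.induction with
    | _ a ih => exact fun k => ih _ k (hf _ _ k)
  obtain ⟨f, h2, h3⟩ := (k.inv.mul h).fib id (fun n hn => by simp [h1 n hn]) (c.map_id).symm
  obtain ⟨g, h4, h5⟩ := (h.inv.mul k).fib id (fun n hn => by simp [← h1 n hn]) (c.map_id).symm
  have h6 : τ (inr ⟨c, a⟩) = ρ (inr ⟨c, f a⟩) := by rw [← h2]; simp
  have h7 : g (f a) = a := by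
    have := h4 (f a)
    simp only [Equiv.Perm.coe_mul, Function.comp_apply, ← h6] at this
    simpa using this.symm
  have h8 := key g h5 (f a)
  rw [h7] at h8
  rw [h6, Subtype.ext (kb_tri _ _ (key f h3 a) h8)]

theorem lift (σ : G) : ∃ τ : Equiv.Perm (F T), Pres τ ∧ ∀ n, τ (inl n) = inl (σ.1 n) := by
  let I := fun c => (iso_A hT σ.2 c).some
  let τ : Equiv.Perm (F T) := Equiv.sumCongr σ.1
    (Equiv.sigmaCongr (Equiv.listEquivOfEquiv σ.1) fun c => (I c).toEquiv)
  have h1 : ∀ c l, τ (inr ⟨c, l⟩) = inr ⟨c.map σ.1, I c l⟩ := fun _ _ => rfl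
  have h2 : ∀ c : List ℕ, (c.map inl).map τ = (c.map σ.1).map inl := fun c => by
    simp only [List.map_map]; rfl
  have h3 : ∀ c : List ℕ, ∃ d : List ℕ, c = d.map σ.1 := fun c =>
    ⟨c.map σ.1.symm, by simp [Function.comp_def]⟩
  refine ⟨τ, fun i L => or_congr (and_congr_right fun _ => ⟨?_, ?_⟩)
    (and_congr_right fun _ => ⟨?_, ?_⟩), fun _ => rfl⟩
  · rintro ⟨c, l, h⟩
    obtain ⟨c, rfl⟩ := h3 c
    obtain ⟨l, rfl⟩ := (I c).surjective l
    exact ⟨c, l, List.map_injective_iff.2 τ.injective (by rw [h, List.map_cons, h1, h2])⟩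
  · rintro ⟨c, l, rfl⟩
    exact ⟨_, _, by rw [List.map_cons, h1, h2]⟩
  · rintro ⟨c, l, m, h, k⟩
    obtain ⟨c, rfl⟩ := h3 c
    obtain ⟨l, rfl⟩ := (I c).surjective l
    obtain ⟨m, rfl⟩ := (I c).surjective m
    exact ⟨c, l, m, List.map_injective_iff.2 τ.injective h, (I c).map_rel_iff.1 k⟩
  · rintro ⟨c, l, m, rfl, k⟩
    exact ⟨_, _, _, rfl, (I c).map_rel_iff.2 k⟩

end Pool.Agent.H.MP_c89ac5_lc
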